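import Pool.Agent.Helper41.Crit.Vertex

set_option autoImplicit false

/-!
# Passing from the dual space to the space
-/

namespace Pool.Agent.Helper41.Crit

open Complex Topology Filter

variable {E : Type*} [NormedAddCommGroup E] [NormedSpace ℂ E]

theorem exists_predual [FiniteDimensional ℂ E] (b : (E →L[ℂ] ℂ) →L[ℂ] (E →L[ℂ] ℂ)) :
    ∃ a : E →L[ℂ] E, ∀ φ x, (b φ) x = φ (a x) := by
  classical
  let β := Module.finBasis ℂ E
  let c : Fin (Module.finrank ℂ E) → E →L[ℂ] ℂ := fun i =>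
    LinearMap.toContinuousLinearMap (β.coord i)
  refine ⟨∑ i, (b (c i)).smulRight (β i), ?_⟩
  intro φ x
  have hφ : φ = ∑ i, φ (β i) • c i := by
    ext y
    rw [sum_apply]
    conv_lhs => rw [← β.sum_repr y, map_sum]
    refine Finset.sum_congr rfl fun i _ => ?_
    rw [map_smul, smul_apply, smul_eq_mul, smul_eq_mul, mul_comm]
    rfl
  conv_lhs => rw [hφ, map_sum, sum_apply]
  rw [sum_apply, map_sum]
  refine Finset.sum_congr rfl fun i _ => ?_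
  rw [map_smul, smul_apply, ContinuousLinearMap.smulRight_apply, map_smul, smul_eq_mul,
    smul_eq_mul, mul_comm]

theorem pow_dual (a : E →L[ℂ] E) (b : (E →L[ℂ] ℂ) →L[ℂ] (E →L[ℂ] ℂ))
    (h : ∀ φ x, (b φ) x = φ (a x)) (m : ℕ) (φ : E →L[ℂ] ℂ) (x : E) :
    ((b ^ m) φ) x = φ ((a ^ m) x) := by
  induction m generalizing φ x with
  | zero => simp
  | succ m ih =>
    have e1 : (b ^ (m + 1)) φ = (b ^ m) (b φ) := by rw [pow_succ]; rfl
    have e2 : (a ^ (m + 1)) x = a ((a ^ m) x) := by rw [pow_succ']; rfl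
    rw [e1, e2, ih, h]

theorem norm_dual (a : E →L[ℂ] E) (b : (E →L[ℂ] ℂ) →L[ℂ] (E →L[ℂ] ℂ))
    (h : ∀ φ x, (b φ) x = φ (a x)) (m : ℕ) : ‖a ^ m‖ = ‖b ^ m‖ := by
  apply le_antisymm
  · refine ContinuousLinearMap.opNorm_le_bound _ (b ^ m).opNorm_nonneg fun x => ?_
    obtain ⟨φ, hφ1, hφ⟩ := exists_dual_vector'' ℂ ((a ^ m) x)
    rw [← pow_dual a b h m φ x] at hφ
    have h1 : ‖(a ^ m) x‖ = ‖((b ^ m) φ) x‖ := by
      rw [hφ]; simp
    rw [h1]
    calc ‖((b ^ m) φ) x‖ ≤ ‖(b ^ m) φ‖ * ‖x‖ := ((b ^ m) φ).le_opNorm x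
      _ ≤ (‖b ^ m‖ * ‖φ‖) * ‖x‖ :=
          mul_le_mul_of_nonneg_right ((b ^ m).le_opNorm φ) (norm_nonneg _)
      _ ≤ (‖b ^ m‖ * 1) * ‖x‖ :=
          mul_le_mul_of_nonneg_right (mul_le_mul_of_nonneg_left hφ1 (b ^ m).opNorm_nonneg)
            (norm_nonneg _)
      _ = ‖b ^ m‖ * ‖x‖ := by rw [mul_one]
  · refine ContinuousLinearMap.opNorm_le_bound _ (norm_nonneg _) fun φ => ?_
    refine ContinuousLinearMap.opNorm_le_bound _ (by positivity) fun x => ?_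
    rw [pow_dual a b h m φ x]
    calc ‖φ ((a ^ m) x)‖ ≤ ‖φ‖ * ‖(a ^ m) x‖ := φ.le_opNorm _
      _ ≤ ‖φ‖ * (‖a ^ m‖ * ‖x‖) :=
          mul_le_mul_of_nonneg_left ((a ^ m).le_opNorm x) (norm_nonneg _)
      _ = ‖a ^ m‖ * ‖φ‖ * ‖x‖ := by ring

theorem spectralRadius_dual [FiniteDimensional ℂ E] (a : E →L[ℂ] E)
    (b : (E →L[ℂ] ℂ) →L[ℂ] (E →L[ℂ] ℂ))
    (h : ∀ φ x, (b φ) x = φ (a x)) : spectralRadius ℂ a = spectralRadius ℂ b := by
  have : CompleteSpace E := FiniteDimensional.complete ℂ E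
  have h1 := spectrum.pow_nnnorm_pow_one_div_tendsto_nhds_spectralRadius a
  have h2 := spectrum.pow_nnnorm_pow_one_div_tendsto_nhds_spectralRadius b
  have h3 : (fun n : ℕ => ((‖a ^ n‖₊ : ENNReal) ^ (1 / (n : ℝ)) : ENNReal)) =
      fun n : ℕ => ((‖b ^ n‖₊ : ENNReal) ^ (1 / (n : ℝ)) : ENNReal) := by
    funext n
    have : ‖a ^ n‖₊ = ‖b ^ n‖₊ := NNReal.eq (norm_dual a b h n)
    rw [this]
  rw [h3] at h1
  exact tendsto_nhds_unique h1 h2

/-- the chain for quotients of `ℓ₁` -/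
theorem dual_chain {ι : Type*} [Finite ι] [FiniteDimensional ℂ E] [Nontrivial E]
    (x : ι → E) (hx : ∀ φ : E →L[ℂ] ℂ, IsGreatest (Set.range fun j => ‖φ (x j)‖) ‖φ‖) (k : ℕ)
    (hk : k + 1 ≤ Module.finrank ℂ E) :
    ∃ a : E →L[ℂ] E, ‖a‖ ≤ 1 ∧ ‖a ^ k‖ = 1 ∧ spectralRadius ℂ a < 1 := by
  have hfin : Module.finrank ℂ (E →L[ℂ] ℂ) = Module.finrank ℂ E := by
    rw [← (LinearMap.toContinuousLinearMap (𝕜 := ℂ) (E := E) (F' := ℂ)).finrank_eq]
    exact Subspace.dual_finrank_eq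
  have : Nontrivial (E →L[ℂ] ℂ) := by
    apply Module.nontrivial_of_finrank_pos (R := ℂ)
    rw [hfin]; omega
  obtain ⟨v, J, r, hr, hJ, hloc, hrank⟩ := polyhedral_vertex
    (fun j => ContinuousLinearMap.apply ℂ ℂ (x j)) (fun φ => hx φ)
  obtain ⟨b, hb1, hb2, hb3⟩ := vertex_chain
    (fun j : J => ContinuousLinearMap.apply ℂ ℂ (x j)) v hJ r hr hloc k (by
      rw [hrank, hfin]; exact hk)
  obtain ⟨a, ha⟩ := exists_predual b
  refine ⟨a, ?_, ?_, ?_⟩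
  · have := norm_dual a b ha 1
    rw [pow_one, pow_one] at this
    rw [this]; exact hb1
  · rw [norm_dual a b ha]; exact hb2
  · rw [spectralRadius_dual a b ha]; exact hb3

/-- the norm with unit ball the absolutely convex hull of finitely many points -/
theorem hull_dual {ι : Type*} [Fintype ι] [Nontrivial E]
    (x : ι → E) (hx : ∀ z : E, IsLeast
      {t : ℝ | ∃ c : ι → ℂ, z = ∑ j, c j • x j ∧ t = ∑ j, ‖c j‖} ‖z‖) (φ : E →L[ℂ] ℂ) :
    IsGreatest (Set.range fun j => ‖φ (x j)‖) ‖φ‖ := by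
  classical
  have hx1 : ∀ j, ‖x j‖ ≤ 1 := by
    intro j
    refine (hx (x j)).2 ⟨Pi.single j 1, ?_, ?_⟩
    · simp [Pi.single_apply]
    · simp [Pi.single_apply, apply_ite norm]
  have hne : Nonempty ι := by
    by_contra hem
    rw [not_nonempty_iff] at hem
    obtain ⟨w, hw⟩ := exists_ne (0 : E)
    obtain ⟨c, hc, _⟩ := (hx w).1
    apply hw
    rw [hc]; simp
  have hub : ∀ j, ‖φ (x j)‖ ≤ ‖φ‖ := fun j => (φ.le_opNorm (x j)).trans (by
    have := hx1 j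
    have := norm_nonneg φ
    nlinarith)
  obtain ⟨j, hj⟩ := Finite.exists_max fun j => ‖φ (x j)‖
  refine ⟨⟨j, ?_⟩, ?_⟩
  · apply le_antisymm (hub j)
    refine ContinuousLinearMap.opNorm_le_bound _ (norm_nonneg _) fun z => ?_
    obtain ⟨c, hc, hcn⟩ := (hx z).1
    rw [hcn, hc, map_sum, Finset.mul_sum]
    refine (norm_sum_le _ _).trans (Finset.sum_le_sum fun i _ => ?_)
    rw [map_smul, norm_smul, mul_comm]
    exact mul_le_mul_of_nonneg_right (hj i) (norm_nonneg _)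
  · rintro _ ⟨i, rfl⟩
    exact hub i

end Pool.Agent.Helper41.Crit
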