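import Pool.Agent.Helper41.Crit.LemAB

set_option autoImplicit false

/-!
# Adding one active functional
-/

namespace Pool.Agent.Helper41.Crit

open Complex Topology

variable {E : Type*} [NormedAddCommGroup E] [NormedSpace ℂ E]

/-- unimodular multiples -/
def Eqv (g h : E →L[ℂ] ℂ) : Prop := ∃ l : ℂ, ‖l‖ = 1 ∧ g = l • h

theorem Eqv.symm {g h : E →L[ℂ] ℂ} (H : Eqv g h) : Eqv h g := by
  obtain ⟨l, hl, rfl⟩ := H
  have hl0 : l ≠ 0 := by intro h; rw [h, norm_zero] at hl; exact zero_ne_one hl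
  refine ⟨l⁻¹, by rw [norm_inv, hl, inv_one], ?_⟩
  rw [smul_smul, inv_mul_cancel₀ hl0, one_smul]

theorem Eqv.norm {g h : E →L[ℂ] ℂ} (H : Eqv g h) (x : E) : ‖g x‖ = ‖h x‖ := by
  obtain ⟨l, hl, rfl⟩ := H
  rw [smul_apply, smul_eq_mul, norm_mul, hl, one_mul]

theorem exists_unimod (ε : ℝ) (hε : 0 < ε) : ∃ u : ℂ, ‖u‖ = 1 ∧ u ≠ 1 ∧ ‖u - 1‖ < ε := by
  set τ : ℝ := ε / 4 with hτ
  have hτ0 : 0 < τ := by positivity
  have hne : (1 - (τ : ℂ) * I) ≠ 0 := by
    intro h
    have := congrArg Complex.re h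
    simp at this
  have hd : ‖(1 - (τ : ℂ) * I)‖ = ‖(1 + (τ : ℂ) * I)‖ := by
    rw [← Complex.norm_conj]
    congr 1
    simp
  have h1 : 1 ≤ ‖(1 - (τ : ℂ) * I)‖ := by
    have := Complex.abs_re_le_norm (1 - (τ : ℂ) * I)
    simpa using this
  have e1 : (1 + (τ : ℂ) * I) / (1 - (τ : ℂ) * I) - 1 = (2 * (τ : ℂ) * I) / (1 - (τ : ℂ) * I) := by
    field_simp; ring
  refine ⟨(1 + (τ : ℂ) * I) / (1 - (τ : ℂ) * I), ?_, ?_, ?_⟩
  · rw [norm_div, hd, div_self]
    rw [← hd]; positivity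
  · intro h
    have h2 : (2 * (τ : ℂ) * I) / (1 - (τ : ℂ) * I) = 0 := by rw [← e1, h, sub_self]
    rw [div_eq_zero_iff] at h2
    rcases h2 with h2 | h2
    · have hτc : (τ : ℂ) ≠ 0 := by exact_mod_cast hτ0.ne'
      simp [hτc] at h2
    · exact hne h2
  · rw [e1, norm_div, norm_mul, norm_mul, Complex.norm_I, Complex.norm_real,
      Real.norm_of_nonneg hτ0.le, Complex.norm_ofNat, mul_one]
    rw [div_lt_iff₀ (by positivity)]
    nlinarith

variable {ι : Type*} [DecidableEq ι]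

theorem lemC (f : ι → E →L[ℂ] ℂ) (s : Finset ι) (e : ι → E)
    (he : ∀ m ∈ s, ∀ n ∈ s, f m (e n) = if m = n then 1 else 0)
    (W : Submodule ℂ E) (hW : ∀ w, w ∈ W ↔ ∀ m ∈ s, f m w = 0)
    (g h : E →L[ℂ] ℂ) {A B : ℝ} (hA : 0 < A) (hB : 0 < B)
    (hgA : ∀ w ∈ W, ‖g w‖ ≤ A * ‖w‖) (hgA' : ∃ b ∈ W, ‖b‖ ≤ 1 ∧ g b = (A : ℂ))
    (hhB : ∀ w ∈ W, ‖h w‖ ≤ B * ‖w‖) (hhB' : ∃ b ∈ W, ‖b‖ ≤ 1 ∧ h b = (B : ℂ))
    (z : E) (hz : ∀ m ∈ s, ‖f m z‖ = 1) {ε : ℝ} (hε : 0 < ε)
    (H : ∀ y, (∀ m ∈ s, ‖f m y‖ = 1) → ‖y - z‖ < ε → (1 - ‖g y‖) / A = (1 - ‖h y‖) / B) :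
    Eqv h g := by
  have main : ∀ y, (∀ m ∈ s, ‖f m y‖ = 1) → ‖y - z‖ < ε →
      ∃ μ : ℂ, ‖μ‖ = 1 ∧ (∀ w ∈ W, h w = μ * g w) ∧ h y = μ * g y := by
    intro y hy hyz
    refine lemB W g h hA hB hgA hgA' hhB hhB' y (ε := ε - ‖y - z‖) (by linarith) ?_
    intro w hw hwn
    refine H _ ?_ ?_
    · intro m hm
      rw [map_add, (hW w).1 hw m hm, add_zero]
      exact hy m hm
    · have : y + w - z = (y - z) + w := by abel
      rw [this]
      exact lt_of_le_of_lt (norm_add_le _ _) (by linarith)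
  obtain ⟨μ, hμ, hμW, hμz⟩ := main z hz (by simpa using hε)
  obtain ⟨a, haW, _, hga⟩ := hgA'
  have hAc : (A : ℂ) ≠ 0 := by exact_mod_cast hA.ne'
  have hem : ∀ m ∈ s, h (e m) = μ * g (e m) := by
    intro m hm
    obtain ⟨ρ, hρ0, hρ⟩ := exists_small ‖e m‖ ε (norm_nonneg _) hε
    obtain ⟨u, hu, hu1, huρ⟩ := exists_unimod ρ hρ0
    set y : E := z + ((u - 1) * f m z) • e m with hy
    have hfm : ‖f m z‖ = 1 := hz m hm
    have hfm0 : f m z ≠ 0 := by intro h0; rw [h0, norm_zero] at hfm; exact zero_ne_one hfm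
    obtain ⟨μ', _, hμW', hμy⟩ := main y (by
      intro n hn
      rw [hy, map_add, map_smul, he n hn m hm]
      by_cases hnm : n = m
      · subst hnm
        rw [if_pos rfl, smul_eq_mul, mul_one]
        have : f n z + (u - 1) * f n z = u * f n z := by ring
        rw [this, norm_mul, hu, hfm, one_mul]
      · rw [if_neg hnm, smul_zero, add_zero]
        exact hz n hn) (by
      rw [hy, add_sub_cancel_left, norm_smul, norm_mul, hfm, mul_one]
      exact lt_of_le_of_lt (mul_le_mul_of_nonneg_right huρ.le (norm_nonneg _)) hρ)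
    have hμμ : μ' = μ := by
      have h1 := hμW a haW
      have h2 := hμW' a haW
      rw [hga] at h1 h2
      have h3 : μ' * (A : ℂ) = μ * A := by rw [← h1, ← h2]
      exact mul_right_cancel₀ hAc h3
    rw [hμμ, hy, map_add, map_add, map_smul, map_smul, hμz, smul_eq_mul, smul_eq_mul] at hμy
    have h4 : (u - 1) * f m z ≠ 0 := mul_ne_zero (sub_ne_zero.2 hu1) hfm0
    have h5 : ((u - 1) * f m z) * h (e m) = ((u - 1) * f m z) * (μ * g (e m)) := by
      linear_combination hμy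
    exact mul_left_cancel₀ h4 h5
  refine ⟨μ, hμ, ?_⟩
  ext y
  have hyW : y - ∑ m ∈ s, f m y • e m ∈ W := by
    rw [hW]
    intro n hn
    rw [map_sub, map_sum, Finset.sum_eq_single n]
    · rw [map_smul, he n hn n hn, if_pos rfl, smul_eq_mul, mul_one, sub_self]
    · intro m hm hmn
      rw [map_smul, he n hn m hm, if_neg (Ne.symm hmn), smul_zero]
    · intro h; exact absurd hn h
  have h1 := hμW _ hyW
  rw [map_sub, map_sub, map_sum, map_sum] at h1
  have h2 : ∑ m ∈ s, h (f m y • e m) = μ * ∑ m ∈ s, g (f m y • e m) := by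
    rw [Finset.mul_sum]
    refine Finset.sum_congr rfl fun m hm => ?_
    rw [map_smul, map_smul, hem m hm, smul_eq_mul, smul_eq_mul]; ring
  rw [smul_apply, smul_eq_mul]
  rw [h2] at h1
  linear_combination h1

/-- points near which exactly the functionals in `s` (up to unimodular multiples) are active -/
def R (f : ι → E →L[ℂ] ℂ) (s : Finset ι) : Set E :=
  {x | (∀ m ∈ s, ‖f m x‖ = 1) ∧ ∀ j, ‖f j x‖ < 1 ∨ ∃ m ∈ s, Eqv (f j) (f m)}

omit [DecidableEq ι] in
theorem R_open [Finite ι] (f : ι → E →L[ℂ] ℂ) (s : Finset ι) (x : E) (hx : x ∈ R f s) :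
    ∃ ε > 0, ∀ y, (∀ m ∈ s, ‖f m y‖ = 1) → ‖y - x‖ < ε → y ∈ R f s := by
  have h : ∀ᶠ y in 𝓝 x, ∀ j, ‖f j x‖ < 1 → ‖f j y‖ < 1 := by
    rw [Filter.eventually_all]
    intro j
    by_cases hj : ‖f j x‖ < 1
    · have : ∀ᶠ y in 𝓝 x, ‖f j y‖ < 1 :=
        (f j).continuous.norm.continuousAt.eventually_lt continuousAt_const hj
      exact this.mono fun y hy _ => hy
    · exact Filter.Eventually.of_forall fun y h => absurd h hj
  obtain ⟨ε, hε, hb⟩ := Metric.eventually_nhds_iff.1 h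
  refine ⟨ε, hε, fun y hy hyx => ⟨hy, fun j => ?_⟩⟩
  rcases hx.2 j with h1 | h1
  · left
    exact hb (by rw [dist_eq_norm]; exact hyx) j h1
  · right; exact h1

theorem dense_distinct [Finite ι] [FiniteDimensional ℂ E] (f : ι → E →L[ℂ] ℂ) (s : Finset ι)
    (e : ι → E) (he : ∀ m ∈ s, ∀ n ∈ s, f m (e n) = if m = n then 1 else 0)
    (W : Submodule ℂ E) (hW : ∀ w, w ∈ W ↔ ∀ m ∈ s, f m w = 0) (A : ι → ℝ)
    (hA1 : ∀ j, ∀ w ∈ W, ‖f j w‖ ≤ A j * ‖w‖)
    (hA2 : ∀ j, ∃ b ∈ W, ‖b‖ ≤ 1 ∧ f j b = (A j : ℂ)) (z : E) (hz : ∀ m ∈ s, ‖f m z‖ = 1)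
    (ε : ℝ) (hε : 0 < ε) :
    ∃ y, (∀ m ∈ s, ‖f m y‖ = 1) ∧ ‖y - z‖ < ε ∧ ∀ i j, 0 < A i → 0 < A j →
      ¬ Eqv (f j) (f i) → (1 - ‖f i y‖) / A i ≠ (1 - ‖f j y‖) / A j := by
  have : CompleteSpace E := FiniteDimensional.complete ℂ E
  let T : Set E := {y | ∀ m ∈ s, ‖f m y‖ = 1}
  have hTc : IsClosed T := by
    have : T = ⋂ m ∈ s, {y | ‖f m y‖ = 1} := by
      ext y; simp [T]
    rw [this]
    exact isClosed_biInter fun m _ => isClosed_eq (f m).continuous.norm continuous_const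
  have : CompleteSpace T := hTc.completeSpace_coe
  let U : ι × ι → Set T := fun p => {y | 0 < A p.1 → 0 < A p.2 → ¬ Eqv (f p.2) (f p.1) →
    (1 - ‖f p.1 y‖) / A p.1 ≠ (1 - ‖f p.2 y‖) / A p.2}
  have hc : ∀ j, Continuous fun y : T => (1 - ‖f j y‖) / A j := by
    intro j
    exact (continuous_const.sub ((f j).continuous.comp continuous_subtype_val).norm).div_const _
  have hopen : ∀ p, IsOpen (U p) := by
    intro p
    by_cases h1 : 0 < A p.1
    · by_cases h2 : 0 < A p.2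
      · by_cases h3 : Eqv (f p.2) (f p.1)
        · have : U p = Set.univ := by ext y; simp [U, h3]
          rw [this]; exact isOpen_univ
        · have : U p = {y : T | (1 - ‖f p.1 y‖) / A p.1 ≠ (1 - ‖f p.2 y‖) / A p.2} := by
            ext y; simp [U, h1, h2, h3]
          rw [this]
          exact isOpen_ne_fun (hc _) (hc _)
      · have : U p = Set.univ := by ext y; simp [U, h2]
        rw [this]; exact isOpen_univ
    · have : U p = Set.univ := by ext y; simp [U, h1]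
      rw [this]; exact isOpen_univ
  have hdense : ∀ p, Dense (U p) := by
    intro p
    rw [Metric.dense_iff]
    intro y r hr
    by_contra hcon
    rw [Set.not_nonempty_iff_eq_empty, Set.eq_empty_iff_forall_notMem] at hcon
    have hnot : ∀ y' : T, ‖(y' : E) - y‖ < r → y' ∉ U p := by
      intro y' hy' hU
      exact hcon y' ⟨by rw [Metric.mem_ball, Subtype.dist_eq, dist_eq_norm]; exact hy', hU⟩
    have h0 := hnot y (by simpa using hr)
    simp only [U, Set.mem_ofPred_eq] at h0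
    push Not at h0
    obtain ⟨h1, h2, h3, _⟩ := h0
    refine h3 (lemC f s e he W hW (f p.1) (f p.2) h1 h2 (hA1 _) (hA2 _) (hA1 _) (hA2 _) y y.2
      hr ?_)
    intro y' hy' hyy
    have h4 := hnot ⟨y', hy'⟩ hyy
    simp only [U, Set.mem_ofPred_eq] at h4
    push Not at h4
    exact h4.2.2.2
  have hD := dense_iInter_of_isOpen hopen hdense
  rw [Metric.dense_iff] at hD
  obtain ⟨y, hy1, hy2⟩ := hD ⟨z, hz⟩ ε hε
  refine ⟨y, y.2, ?_, ?_⟩
  · rw [Metric.mem_ball, Subtype.dist_eq, dist_eq_norm] at hy1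
    exact hy1
  · intro i j hi hj hij
    have := Set.mem_iInter.1 hy2 (i, j)
    exact this hi hj hij

theorem step [Finite ι] [FiniteDimensional ℂ E] (f : ι → E →L[ℂ] ℂ) (v : E)
    (hv : ∀ j, ‖f j v‖ = 1) (s : Finset ι) (e : ι → E)
    (he : ∀ m ∈ s, ∀ n ∈ s, f m (e n) = if m = n then 1 else 0) (hvs : v ∈ closure (R f s))
    (i0 : ι) (w0 : E) (hw0 : ∀ m ∈ s, f m w0 = 0) (hi0 : f i0 w0 ≠ 0) :
    ∃ j0, j0 ∉ s ∧ (∃ e' : ι → E, ∀ m ∈ insert j0 s, ∀ n ∈ insert j0 s,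
      f m (e' n) = if m = n then 1 else 0) ∧ v ∈ closure (R f (insert j0 s)) := by
  classical
  let W : Submodule ℂ E := ⨅ m ∈ s, LinearMap.ker (f m : E →ₗ[ℂ] ℂ)
  have hW : ∀ w, w ∈ W ↔ ∀ m ∈ s, f m w = 0 := by
    intro w; simp [W, Submodule.mem_iInf]
  choose A hA0 hA1 hA2 using fun j => lemN W (f j)
  have hApos : ∀ j, 0 < A j ↔ ∃ w ∈ W, f j w ≠ 0 := by
    intro j
    constructor
    · intro h
      obtain ⟨b, hb, _, hfb⟩ := hA2 j
      exact ⟨b, hb, by rw [hfb]; exact_mod_cast h.ne'⟩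
    · rintro ⟨w, hw, hne⟩
      refine lt_of_le_of_ne (hA0 j) fun h => ?_
      have := hA1 j w hw
      rw [← h, zero_mul] at this
      exact hne (norm_le_zero_iff.1 this)
  -- it is enough to find points in the union
  have hun : v ∈ closure (⋃ j : {j // 0 < A j}, R f (insert (j : ι) s)) := by
    rw [Metric.mem_closure_iff]
    intro δ hδ
    have hAi0 : 0 < A i0 := (hApos i0).2 ⟨w0, (hW w0).2 hw0, hi0⟩
    set C : ℝ := 1 + ‖f i0‖ / A i0 with hC
    have hC1 : 1 ≤ C := by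
      have : 0 ≤ ‖f i0‖ / A i0 := by positivity
      linarith
    have hC0 : 0 < C := by linarith
    obtain ⟨x0, hx0, hx0v⟩ := Metric.mem_closure_iff.1 hvs (δ / (2 * C)) (by positivity)
    obtain ⟨ε0, hε0, hop⟩ := R_open f s x0 hx0
    obtain ⟨z, hz, hzx, hdist⟩ := dense_distinct f s e he W hW A hA1 hA2 x0 hx0.1
      (min ε0 (δ / (2 * C))) (by positivity)
    have hzR : z ∈ R f s := hop z hz (lt_of_lt_of_le hzx (min_le_left _ _))
    have hzv : ‖z - v‖ < δ / C := by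
      have h1 : z - v = (z - x0) + (x0 - v) := by abel
      have h2 : ‖z - x0‖ < δ / (2 * C) := lt_of_lt_of_le hzx (min_le_right _ _)
      rw [dist_eq_norm, norm_sub_rev] at hx0v
      have h3 : δ / (2 * C) + δ / (2 * C) = δ / C := by field_simp; ring
      rw [h1]
      exact lt_of_le_of_lt (norm_add_le _ _) (by linarith)
    -- functionals not vanishing on W are inactive at z
    have hina : ∀ j, 0 < A j → ‖f j z‖ < 1 := by
      intro j hj
      rcases hzR.2 j with h | ⟨m, hm, hjm⟩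
      · exact h
      · exfalso
        obtain ⟨w, hw, hne⟩ := (hApos j).1 hj
        have h1 := hjm.norm w
        rw [(hW w).1 hw m hm, norm_zero, norm_eq_zero] at h1
        exact hne h1
    obtain ⟨j0, hj0, hmin⟩ := Set.exists_min_image {j | 0 < A j}
      (fun j => (1 - ‖f j z‖) / A j) (Set.toFinite _) ⟨i0, hAi0⟩
    have hj0' : 0 < A j0 := hj0
    obtain ⟨φ, hφ1, hφ⟩ := exists_phase (f j0 z)
    obtain ⟨b, hbW, hb1, hfb⟩ := hA2 j0
    set τ : ℝ := (1 - ‖f j0 z‖) / A j0 with hτ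
    have hτ0 : 0 < τ := div_pos (by linarith [hina j0 hj0']) hj0'
    set x' : E := z + ((τ : ℂ) * φ) • b with hx'
    have hwn : ‖((τ : ℂ) * φ) • b‖ ≤ τ := by
      rw [norm_smul, norm_mul, hφ1, Complex.norm_real, Real.norm_of_nonneg hτ0.le, mul_one]
      nlinarith
    have hwW : ((τ : ℂ) * φ) • b ∈ W := W.smul_mem _ hbW
    have hAj0c : (A j0 : ℂ) ≠ 0 := by exact_mod_cast hj0'.ne'
    have hfj0 : f j0 x' = φ := by
      rw [hx', map_add, map_smul, hfb, smul_eq_mul]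
      nth_rewrite 1 [hφ]
      rw [hτ]
      push_cast
      field_simp
      ring
    refine ⟨x', ?_, ?_⟩
    · refine Set.mem_iUnion.2 ⟨⟨j0, hj0'⟩, ?_, ?_⟩
      · intro m hm
        rcases Finset.mem_insert.1 hm with rfl | hm
        · rw [hfj0, hφ1]
        · rw [hx', map_add, (hW _).1 hwW m hm, add_zero]
          exact hz m hm
      · intro j
        by_cases hj : 0 < A j
        · by_cases hE : Eqv (f j) (f j0)
          · right; exact ⟨j0, Finset.mem_insert_self _ _, hE⟩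
          · left
            have h1 : τ < (1 - ‖f j z‖) / A j := by
              refine lt_of_le_of_ne (hmin j hj) ?_
              exact hdist j0 j hj0' hj hE
            rw [lt_div_iff₀ hj] at h1
            have h2 : ‖f j x'‖ ≤ ‖f j z‖ + A j * τ := by
              rw [hx', map_add]
              refine (norm_add_le _ _).trans ?_
              have := hA1 j _ hwW
              nlinarith
            linarith
        · have h0 : f j x' = f j z := by
            rw [hx', map_add]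
            have : f j (((τ : ℂ) * φ) • b) = 0 := by
              by_contra hne
              exact hj ((hApos j).2 ⟨_, hwW, hne⟩)
            rw [this, add_zero]
          rcases hzR.2 j with h | ⟨m, hm, hjm⟩
          · left; rw [h0]; exact h
          · right; exact ⟨m, Finset.mem_insert_of_mem hm, hjm⟩
    · rw [dist_eq_norm, norm_sub_rev]
      have h1 : x' - v = (z - v) + ((τ : ℂ) * φ) • b := by rw [hx']; abel
      have h2 : τ ≤ (1 - ‖f i0 z‖) / A i0 := hmin i0 hAi0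
      have h3 : 1 - ‖f i0 z‖ ≤ ‖f i0‖ * ‖z - v‖ := by
        have h4 : ‖f i0 v‖ - ‖f i0 z‖ ≤ ‖f i0 v - f i0 z‖ := norm_sub_norm_le _ _
        rw [hv i0, ← map_sub] at h4
        have h5 := (f i0).le_opNorm (v - z)
        rw [norm_sub_rev v z] at h5
        linarith
      have h6 : (1 - ‖f i0 z‖) / A i0 ≤ ‖f i0‖ / A i0 * ‖z - v‖ := by
        rw [div_le_iff₀ hAi0]
        have : ‖f i0‖ / A i0 * ‖z - v‖ * A i0 = ‖f i0‖ * ‖z - v‖ := by field_simp
        rw [this]; exact h3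
      have h7 : ‖x' - v‖ ≤ C * ‖z - v‖ := by
        rw [h1]
        refine (norm_add_le _ _).trans ?_
        rw [hC]; linarith
      refine lt_of_le_of_lt h7 ?_
      have h8 : C * (δ / C) = δ := by field_simp
      calc C * ‖z - v‖ < C * (δ / C) := mul_lt_mul_of_pos_left hzv hC0
        _ = δ := h8
  rw [closure_iUnion_of_finite, Set.mem_iUnion] at hun
  obtain ⟨⟨j0, hj0⟩, hcl⟩ := hun
  obtain ⟨w, hw, hne⟩ := (hApos j0).1 hj0
  have hw' := (hW w).1 hw
  refine ⟨j0, fun hmem => hne (hw' j0 hmem), ?_, hcl⟩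
  -- dual vectors
  have hj0s : ∀ m ∈ s, m ≠ j0 := fun m hm h => hne (hw' j0 (h ▸ hm))
  set b : E := (f j0 w)⁻¹ • w with hb
  have hb1 : f j0 b = 1 := by rw [hb, map_smul, smul_eq_mul, inv_mul_cancel₀ hne]
  have hb0 : ∀ m ∈ s, f m b = 0 := by
    intro m hm; rw [hb, map_smul, hw' m hm, smul_zero]
  refine ⟨fun n => if n = j0 then b else e n - f j0 (e n) • b, ?_⟩
  intro m hm n hn
  beta_reduce
  rcases Finset.mem_insert.1 hn with rfl | hns
  · rw [if_pos rfl]
    rcases Finset.mem_insert.1 hm with rfl | hms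
    · rw [if_pos rfl, hb1]
    · rw [if_neg (hj0s m hms), hb0 m hms]
  · rw [if_neg (hj0s n hns), map_sub, map_smul, smul_eq_mul]
    rcases Finset.mem_insert.1 hm with rfl | hms
    · rw [hb1, mul_one, sub_self, if_neg (Ne.symm (hj0s n hns))]
    · rw [hb0 m hms, mul_zero, sub_zero, he m hms n hns]

end Pool.Agent.Helper41.Crit
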