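import Mathlib

set_option autoImplicit false

/-!
# Two functionals with the same hitting distance on an open set
-/

namespace Pool.Agent.Helper41.Crit

open Complex

theorem exists_small (C ε : ℝ) (hC : 0 ≤ C) (hε : 0 < ε) : ∃ t : ℝ, 0 < t ∧ t * C < ε := by
  refine ⟨ε / (2 * (C + 1)), by positivity, ?_⟩
  rw [div_mul_eq_mul_div, div_lt_iff₀ (by positivity)]
  nlinarith

theorem exists_phase (P : ℂ) : ∃ φ : ℂ, ‖φ‖ = 1 ∧ P = (‖P‖ : ℂ) * φ := by
  by_cases hP : P = 0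
  · exact ⟨1, by simp, by simp [hP]⟩
  · have h : ‖P‖ ≠ 0 := norm_ne_zero_iff.2 hP
    refine ⟨P / ‖P‖, ?_, ?_⟩
    · rw [norm_div, Complex.norm_real, norm_norm, div_self h]
    · have h' : (‖P‖ : ℂ) ≠ 0 := by exact_mod_cast h
      field_simp

/-- two points with a constant difference of distances on a disc are equal -/
theorem lemA {p q : ℂ} {κ ε : ℝ} (hε : 0 < ε)
    (h : ∀ ζ : ℂ, ‖ζ‖ < ε → ‖q + ζ‖ - ‖p + ζ‖ = κ) : p = q := by
  have key : ∀ ζ : ℂ, ‖ζ‖ < ε →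
      (q + ζ).im * (p + ζ).re - (q + ζ).re * (p + ζ).im = 0 := by
    intro ζ hζ
    obtain ⟨t, ht0, ht⟩ := exists_small ‖p + ζ‖ (ε - ‖ζ‖) (norm_nonneg _) (by linarith)
    have h1 := h ζ hζ
    have hn : ‖(t : ℂ) * (p + ζ)‖ = t * ‖p + ζ‖ := by
      rw [norm_mul, Complex.norm_real, Real.norm_of_nonneg ht0.le]
    have h2 := h (ζ + (t : ℂ) * (p + ζ)) (by
      refine lt_of_le_of_lt (norm_add_le _ _) ?_
      rw [hn]; linarith)
    have h3 : p + (ζ + (t : ℂ) * (p + ζ)) = ((1 + t : ℝ) : ℂ) * (p + ζ) := by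
      push_cast; ring
    rw [h3, norm_mul, Complex.norm_real, Real.norm_of_nonneg (by linarith), ← add_assoc] at h2
    have h4 : ‖(q + ζ) + (t : ℂ) * (p + ζ)‖ = ‖q + ζ‖ + ‖(t : ℂ) * (p + ζ)‖ := by
      rw [hn]; linarith
    have hs : SameRay ℝ (q + ζ) ((t : ℂ) * (p + ζ)) := sameRay_iff_norm_add.2 h4
    have hs' : SameRay ℝ (q + ζ) (p + ζ) := by
      have e : (t : ℂ) * (p + ζ) = t • (p + ζ) := by rw [Complex.real_smul]
      rw [e] at hs
      have h := hs.pos_smul_right (inv_pos.2 ht0)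
      rwa [smul_smul, inv_mul_cancel₀ ht0.ne', one_smul] at h
    have h5 : ‖q + ζ‖ • (p + ζ) = ‖p + ζ‖ • (q + ζ) := hs'.norm_smul_eq
    by_cases hz : p + ζ = 0
    · rw [hz]; simp
    have hz' : ‖p + ζ‖ ≠ 0 := norm_ne_zero_iff.2 hz
    have hre := congrArg Complex.re h5
    have him := congrArg Complex.im h5
    rw [Complex.real_smul, Complex.real_smul, Complex.re_ofReal_mul, Complex.re_ofReal_mul] at hre
    rw [Complex.real_smul, Complex.real_smul, Complex.im_ofReal_mul, Complex.im_ofReal_mul] at him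
    have h6 : ‖p + ζ‖ * ((q + ζ).im * (p + ζ).re - (q + ζ).re * (p + ζ).im) = 0 := by
      linear_combination (-(p + ζ).re) * him + (p + ζ).im * hre
    exact (mul_eq_zero.1 h6).resolve_left hz'
  obtain ⟨τ, hτ0, hτ⟩ := exists_small ‖q - p‖ ε (norm_nonneg _) hε
  have h0 := key 0 (by simpa using hε)
  have h1 := key (((τ : ℂ) * I) * (q - p)) (by
    rw [norm_mul, norm_mul, Complex.norm_real, Complex.norm_I, mul_one,
      Real.norm_of_nonneg hτ0.le]
    exact hτ)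
  simp only [add_zero] at h0
  simp only [Complex.add_re, Complex.add_im, Complex.mul_re, Complex.mul_im, Complex.sub_re,
    Complex.sub_im, Complex.ofReal_re, Complex.ofReal_im, Complex.I_re, Complex.I_im] at h1
  ring_nf at h1
  have h2 : τ * ((q.re - p.re) ^ 2 + (q.im - p.im) ^ 2) = 0 := by
    nlinarith
  have h3 : (q.re - p.re) ^ 2 + (q.im - p.im) ^ 2 = 0 :=
    (mul_eq_zero.1 h2).resolve_left hτ0.ne'
  have h4 : (q.re - p.re) ^ 2 = 0 := by nlinarith [sq_nonneg (q.re - p.re), sq_nonneg (q.im - p.im)]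
  have h5 : (q.im - p.im) ^ 2 = 0 := by nlinarith [sq_nonneg (q.re - p.re), sq_nonneg (q.im - p.im)]
  apply Complex.ext
  · have := pow_eq_zero_iff (two_ne_zero) |>.1 h4
    linarith
  · have := pow_eq_zero_iff (two_ne_zero) |>.1 h5
    linarith

theorem nonconst (p s : ℂ) (hs : s ≠ 0) (ε : ℝ) (hε : 0 < ε) :
    ∃ t : ℂ, ‖t‖ < ε ∧ ‖p + t * s‖ ≠ ‖p‖ := by
  by_cases hp : p = 0
  · refine ⟨((ε / 2 : ℝ) : ℂ), ?_, ?_⟩
    · rw [Complex.norm_real, Real.norm_of_nonneg (by positivity)]; linarith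
    · rw [hp, zero_add, norm_zero, norm_mul, Complex.norm_real,
        Real.norm_of_nonneg (by positivity)]
      have : ‖s‖ ≠ 0 := norm_ne_zero_iff.2 hs
      positivity
  · obtain ⟨τ, hτ0, hτ⟩ := exists_small ‖p / s‖ ε (norm_nonneg _) hε
    refine ⟨(τ : ℂ) * (p / s), ?_, ?_⟩
    · rw [norm_mul, Complex.norm_real, Real.norm_of_nonneg hτ0.le]; exact hτ
    · have : p + (τ : ℂ) * (p / s) * s = ((1 + τ : ℝ) : ℂ) * p := by
        push_cast; field_simp
      rw [this, norm_mul, Complex.norm_real, Real.norm_of_nonneg (by linarith)]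
      have : 0 < ‖p‖ := norm_pos_iff.2 hp
      nlinarith

variable {E : Type*} [NormedAddCommGroup E] [NormedSpace ℂ E]

theorem lemN [FiniteDimensional ℂ E] (W : Submodule ℂ E) (g : E →L[ℂ] ℂ) :
    ∃ A : ℝ, 0 ≤ A ∧ (∀ w ∈ W, ‖g w‖ ≤ A * ‖w‖) ∧ ∃ b ∈ W, ‖b‖ ≤ 1 ∧ g b = (A : ℂ) := by
  have : ProperSpace E := FiniteDimensional.proper ℂ E
  have hcl : IsClosed (W : Set E) := W.closed_of_finiteDimensional
  have hcomp : IsCompact (Metric.closedBall (0 : E) 1 ∩ (W : Set E)) :=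
    (isCompact_closedBall (0 : E) 1).inter_right hcl
  have hne : (Metric.closedBall (0 : E) 1 ∩ (W : Set E)).Nonempty :=
    ⟨0, by simp, W.zero_mem⟩
  obtain ⟨b0, hb0, hmax⟩ := hcomp.exists_isMaxOn hne
    (f := fun w => ‖g w‖) (g.continuous.norm.continuousOn)
  refine ⟨‖g b0‖, norm_nonneg _, ?_, ?_⟩
  · intro w hw
    by_cases hw0 : w = 0
    · simp [hw0]
    have hn : ‖w‖ ≠ 0 := norm_ne_zero_iff.2 hw0
    have h1 : (((‖w‖⁻¹ : ℝ) : ℂ) • w) ∈ (Metric.closedBall (0 : E) 1 ∩ (W : Set E)) := by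
      refine ⟨?_, W.smul_mem _ hw⟩
      rw [mem_closedBall_zero_iff, norm_smul, Complex.norm_real,
        Real.norm_of_nonneg (by positivity), inv_mul_cancel₀ hn]
    have h2 := hmax h1
    simp only [Set.mem_ofPred_eq] at h2
    rw [map_smul, smul_eq_mul, norm_mul, Complex.norm_real,
      Real.norm_of_nonneg (by positivity), inv_mul_le_iff₀ (by positivity)] at h2
    linarith
  · obtain ⟨φ, hφ, hφ'⟩ := exists_phase (g b0)
    have hφ0 : φ ≠ 0 := by
      intro h; rw [h, norm_zero] at hφ; exact zero_ne_one hφ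
    refine ⟨φ⁻¹ • b0, W.smul_mem _ hb0.2, ?_, ?_⟩
    · rw [norm_smul, norm_inv, hφ, inv_one, one_mul]
      exact mem_closedBall_zero_iff.1 hb0.1
    · rw [map_smul, smul_eq_mul]
      nth_rewrite 1 [hφ']
      field_simp

theorem lemB (W : Submodule ℂ E) (g h : E →L[ℂ] ℂ) {A B : ℝ} (hA : 0 < A) (hB : 0 < B)
    (hgA : ∀ w ∈ W, ‖g w‖ ≤ A * ‖w‖) (hgA' : ∃ b ∈ W, ‖b‖ ≤ 1 ∧ g b = (A : ℂ))
    (hhB : ∀ w ∈ W, ‖h w‖ ≤ B * ‖w‖) (hhB' : ∃ b ∈ W, ‖b‖ ≤ 1 ∧ h b = (B : ℂ))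
    (z : E) {ε : ℝ} (hε : 0 < ε)
    (H : ∀ w ∈ W, ‖w‖ < ε → (1 - ‖g (z + w)‖) / A = (1 - ‖h (z + w)‖) / B) :
    ∃ μ : ℂ, ‖μ‖ = 1 ∧ (∀ w ∈ W, h w = μ * g w) ∧ h z = μ * g z := by
  obtain ⟨a, haW, ha1, hga⟩ := hgA'
  obtain ⟨b, hbW, hb1, hhb⟩ := hhB'
  have hAc : (A : ℂ) ≠ 0 := by exact_mod_cast hA.ne'
  have hBc : (B : ℂ) ≠ 0 := by exact_mod_cast hB.ne'
  have claim1 : ∀ w ∈ W, g w = 0 → h w = 0 := by
    intro w hw hgw
    by_contra hne
    obtain ⟨ρ, hρ0, hρ⟩ := exists_small ‖w‖ ε (norm_nonneg _) hε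
    obtain ⟨t, ht, htn⟩ := nonconst (h z) (h w) hne ρ hρ0
    have h1 := H 0 W.zero_mem (by simpa using hε)
    have h2 := H (t • w) (W.smul_mem _ hw) (by
      rw [norm_smul]
      refine lt_of_le_of_lt (mul_le_mul_of_nonneg_right ht.le (norm_nonneg _)) hρ)
    rw [add_zero] at h1
    rw [map_add, map_add, map_smul, map_smul, hgw, smul_zero, add_zero, h1, smul_eq_mul] at h2
    rw [div_left_inj' hB.ne'] at h2
    exact htn (by linarith)
  set μ : ℂ := h a / A with hμ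
  have hW : ∀ w ∈ W, h w = μ * g w := by
    intro w hw
    have h1 := claim1 (w - (g w / A) • a) (W.sub_mem hw (W.smul_mem _ haW)) (by
      rw [map_sub, map_smul, hga, smul_eq_mul]; field_simp; ring)
    rw [map_sub, map_smul, smul_eq_mul, sub_eq_zero] at h1
    rw [h1, hμ]; field_simp
  have hμ0 : μ ≠ 0 := by
    intro h0
    have := hW b hbW
    rw [h0, zero_mul, hhb] at this
    exact hBc this
  have hμn : 0 < ‖μ‖ := norm_pos_iff.2 hμ0
  have hAB : ‖μ‖ * A = B := by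
    apply le_antisymm
    · have h1 := hhB a haW
      rw [hW a haW, hga, norm_mul, Complex.norm_real, Real.norm_of_nonneg hA.le] at h1
      nlinarith
    · have h1 := hgA b hbW
      have h2 := hW b hbW
      rw [hhb] at h2
      have h3 := congrArg norm h2
      rw [norm_mul, Complex.norm_real, Real.norm_of_nonneg hB.le] at h3
      rw [h3]
      apply mul_le_mul_of_nonneg_left _ hμn.le
      nlinarith
  have hlem : ∀ ζ : ℂ, ‖ζ‖ < ε * A → ‖h z / μ + ζ‖ - ‖g z + ζ‖ = 1 / ‖μ‖ - 1 := by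
    intro ζ hζ
    have h1 := H ((ζ / A) • a) (W.smul_mem _ haW) (by
      rw [norm_smul, norm_div, Complex.norm_real, Real.norm_of_nonneg hA.le]
      have h2 : ‖ζ‖ / A < ε := by rwa [div_lt_iff₀ hA]
      have h3 : 0 ≤ ‖ζ‖ / A := by positivity
      nlinarith [norm_nonneg a])
    have e1 : g (z + (ζ / A) • a) = g z + ζ := by
      rw [map_add, map_smul, hga, smul_eq_mul]; field_simp
    have e2 : h (z + (ζ / A) • a) = μ * (h z / μ + ζ) := by
      rw [map_add, map_smul, hW a haW, hga, smul_eq_mul]; field_simp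
    rw [e1, e2, ← hAB, norm_mul] at h1
    field_simp at h1 ⊢
    linarith
  have hpq := lemA (by positivity : 0 < ε * A) hlem
  have h0 := hlem 0 (by rw [norm_zero]; positivity)
  rw [hpq, sub_self] at h0
  have hμ1 : ‖μ‖ = 1 := by
    field_simp at h0
    linarith
  refine ⟨μ, hμ1, hW, ?_⟩
  rw [hpq]; field_simp

end Pool.Agent.Helper41.Crit
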