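import Mathlib

set_option autoImplicit false

/-!
# A chain of contractions at a simple vertex

If near a point `v` the norm is the maximum of the moduli of `k+1` functionals `g 0, …, g k`
which are biorthogonal to vectors `u 0, …, u k` and take the value `1` at `v`, then there is an
operator `a` of norm at most one with `‖a ^ k‖ = 1` and spectral radius less than one.
-/

namespace Pool.Agent.Helper41.Crit

open Complex

/-- two complex numbers of modulus at most one with a convex combination of modulus one -/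
theorem eq_of_convex_norm {p q : ℂ} {ε : ℝ} (h0 : 0 < ε) (h1 : ε < 1) (hp : ‖p‖ ≤ 1)
    (hq : ‖q‖ ≤ 1) (h : ‖(1 - (ε : ℂ)) * p + (ε : ℂ) * q‖ = 1) : q = p ∧ ‖p‖ = 1 := by
  have e1 : ‖(1 - (ε : ℂ)) * p‖ = (1 - ε) * ‖p‖ := by
    rw [norm_mul]
    congr 1
    have : (1 - (ε : ℂ)) = ((1 - ε : ℝ) : ℂ) := by push_cast; ring
    rw [this, Complex.norm_real, Real.norm_of_nonneg (by linarith)]
  have e2 : ‖(ε : ℂ) * q‖ = ε * ‖q‖ := by
    rw [norm_mul, Complex.norm_real, Real.norm_of_nonneg h0.le]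
  have h3 : ‖(1 - (ε : ℂ)) * p + (ε : ℂ) * q‖ ≤ (1 - ε) * ‖p‖ + ε * ‖q‖ := by
    rw [← e1, ← e2]; exact norm_add_le _ _
  have hp1 : ‖p‖ = 1 := by
    by_contra hne
    have : ‖p‖ < 1 := lt_of_le_of_ne hp hne
    nlinarith
  have hq1 : ‖q‖ = 1 := by
    by_contra hne
    have : ‖q‖ < 1 := lt_of_le_of_ne hq hne
    nlinarith
  refine ⟨?_, hp1⟩
  have hs : SameRay ℝ ((1 - (ε : ℂ)) * p) ((ε : ℂ) * q) := by
    rw [sameRay_iff_norm_add, h, e1, e2, hp1, hq1]; ring
  have hs1 : SameRay ℝ p ((1 - (ε : ℂ)) * p) := by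
    have : (1 - (ε : ℂ)) * p = (1 - ε : ℝ) • p := by
      rw [Complex.real_smul]; push_cast; ring
    rw [this]
    exact SameRay.sameRay_nonneg_smul_right p (by linarith)
  have hs2 : SameRay ℝ ((ε : ℂ) * q) q := by
    have : (ε : ℂ) * q = (ε : ℝ) • q := by
      rw [Complex.real_smul]
    rw [this]
    exact SameRay.sameRay_nonneg_smul_left q h0.le
  have hpq : SameRay ℝ p q := by
    refine (hs1.trans hs ?_).trans hs2 ?_
    · intro h0'
      rw [h0', norm_zero] at e1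
      rw [hp1] at e1
      exact absurd e1.symm (by nlinarith : (1 - ε) * 1 ≠ 0)
    · intro h0'
      rw [h0', norm_zero] at e2
      rw [hq1] at e2
      exact absurd e2.symm (by nlinarith : ε * 1 ≠ 0)
  exact (hpq.eq_of_norm_eq (by rw [hp1, hq1])).symm

variable {E : Type*} [NormedAddCommGroup E] [NormedSpace ℂ E]

/-- global bound for functionals which bound the norm from below near a point where they are
norming -/
theorem bound_of_local (g : E →L[ℂ] ℂ) (v : E) (hv : ‖v‖ ≤ 1) (hgv : g v = 1) (r : ℝ)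
    (hr : 0 < r) (hloc : ∀ z, ‖z - v‖ < r → ‖g z‖ ≤ ‖z‖) (z : E) : ‖g z‖ ≤ ‖z‖ := by
  by_cases hz : g z = 0
  · rw [hz, norm_zero]; exact norm_nonneg z
  obtain ⟨s, hs0, hs⟩ : ∃ s : ℝ, 0 < s ∧ s * ‖z‖ < r := by
    refine ⟨r / (2 * (‖z‖ + 1)), by positivity, ?_⟩
    have h1 : 0 < ‖z‖ + 1 := by positivity
    rw [div_mul_eq_mul_div, div_lt_iff₀ (by positivity)]
    nlinarith [norm_nonneg z]
  have hn : ‖g z‖ ≠ 0 := by simpa using hz
  set ω : ℂ := (‖g z‖ : ℂ) / g z with hω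
  have hω1 : ‖ω‖ = 1 := by
    rw [hω, norm_div, Complex.norm_real, norm_norm, div_self hn]
  have hωg : ω * g z = (‖g z‖ : ℂ) := by
    rw [hω]; field_simp
  have h1 := hloc (v + ((s : ℂ) * ω) • z) (by
    rw [add_sub_cancel_left, norm_smul, norm_mul, hω1, Complex.norm_real,
      Real.norm_of_nonneg hs0.le, mul_one]
    exact hs)
  have h2 : g (v + ((s : ℂ) * ω) • z) = ((1 + s * ‖g z‖ : ℝ) : ℂ) := by
    rw [map_add, map_smul, hgv, smul_eq_mul, mul_assoc, hωg]
    push_cast; ring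
  rw [h2, Complex.norm_real, Real.norm_of_nonneg (by positivity)] at h1
  have h3 : ‖v + ((s : ℂ) * ω) • z‖ ≤ 1 + s * ‖z‖ := by
    refine (norm_add_le _ _).trans ?_
    rw [norm_smul, norm_mul, hω1, Complex.norm_real, Real.norm_of_nonneg hs0.le, mul_one]
    linarith
  have h4 : s * ‖g z‖ ≤ s * ‖z‖ := by linarith
  exact le_of_mul_le_mul_left h4 hs0

/-- in finite dimension a spectral radius at least one comes from an eigenvector -/
theorem spectralRadius_lt_one [FiniteDimensional ℂ E] [Nontrivial E] (a : E →L[ℂ] E)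
    (h : ∀ (l : ℂ) (y : E), y ≠ 0 → a y = l • y → ‖l‖ < 1) : spectralRadius ℂ a < 1 := by
  have : CompleteSpace E := FiniteDimensional.complete ℂ E
  obtain ⟨l, hl, hle⟩ := spectrum.exists_nnnorm_eq_spectralRadius a
  rw [← hle]
  rw [ContinuousLinearMap.spectrum_eq, ← Module.End.hasEigenvalue_iff_mem_spectrum] at hl
  obtain ⟨y, hy⟩ := hl.exists_hasEigenvector
  have h1 := h l y hy.2 hy.apply_eq_smul
  have h2 : ‖l‖₊ < 1 := by exact_mod_cast h1
  exact_mod_cast h2

theorem simple_vertex [FiniteDimensional ℂ E] (k : ℕ) (g : Fin (k + 1) → E →L[ℂ] ℂ)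
    (u : Fin (k + 1) → E) (hgu : ∀ i j, g j (u i) = if i = j then 1 else 0) (v : E)
    (hgv : ∀ j, g j v = 1) (r : ℝ) (hr : 0 < r)
    (hnorm : ∀ z, ‖z - v‖ < r → IsGreatest (Set.range fun j => ‖g j z‖) ‖z‖) :
    ∃ a : E →L[ℂ] E, ‖a‖ ≤ 1 ∧ ‖a ^ k‖ = 1 ∧ spectralRadius ℂ a < 1 := by
  have hv1 : ‖v‖ = 1 := by
    obtain ⟨j, hj⟩ := (hnorm v (by simpa using hr)).1
    simp only at hj
    rw [← hj, hgv, norm_one]
  have hub : ∀ z, ‖z - v‖ < r → ∀ j, ‖g j z‖ ≤ ‖z‖ := fun z hz j =>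
    (hnorm z hz).2 ⟨j, rfl⟩
  have hg : ∀ j z, ‖g j z‖ ≤ ‖z‖ := fun j z =>
    bound_of_local (g j) v hv1.le (hgv j) r hr (fun z hz => hub z hz j) z
  have : Nontrivial E := by
    refine ⟨v, 0, ?_⟩
    intro h
    rw [h, norm_zero] at hv1
    exact zero_ne_one hv1
  -- the parameter t
  obtain ⟨t, ht0, ht1, htr⟩ : ∃ t : ℝ, 0 < t ∧ t < 1 ∧ t * ‖u (Fin.last k)‖ < r / 2 := by
    refine ⟨min (1 / 2) (r / (4 * (‖u (Fin.last k)‖ + 1))), by positivity, ?_, ?_⟩
    · exact lt_of_le_of_lt (min_le_left _ _) (by norm_num)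
    · have h1 : 0 < ‖u (Fin.last k)‖ + 1 := by positivity
      have h2 : min (1 / 2) (r / (4 * (‖u (Fin.last k)‖ + 1))) * ‖u (Fin.last k)‖
          ≤ r / (4 * (‖u (Fin.last k)‖ + 1)) * ‖u (Fin.last k)‖ :=
        mul_le_mul_of_nonneg_right (min_le_right _ _) (norm_nonneg _)
      refine lt_of_le_of_lt h2 ?_
      rw [div_mul_eq_mul_div, div_lt_iff₀ (by positivity)]
      nlinarith [norm_nonneg (u (Fin.last k))]
  set x : E := v - (t : ℂ) • u (Fin.last k) with hx
  have hgx : ∀ j : Fin k, g j.castSucc x = 1 := by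
    intro j
    rw [hx, map_sub, map_smul, hgv, hgu, if_neg (Fin.castSucc_lt_last j).ne', smul_zero,
      sub_zero]
  have hgxl : g (Fin.last k) x = ((1 - t : ℝ) : ℂ) := by
    rw [hx, map_sub, map_smul, hgv, hgu, if_pos rfl, smul_eq_mul, mul_one]
    push_cast; ring
  have hxv : ‖x - v‖ < r / 2 := by
    rw [hx, sub_sub_cancel_left, norm_neg, norm_smul, Complex.norm_real,
      Real.norm_of_nonneg ht0.le]
    exact htr
  have hx1 : ‖x‖ ≤ 1 := by
    obtain ⟨j, hj⟩ := (hnorm x (by linarith)).1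
    simp only at hj
    rw [← hj]
    rcases Fin.eq_castSucc_or_eq_last j with ⟨i, rfl⟩ | rfl
    · rw [hgx, norm_one]
    · rw [hgxl, Complex.norm_real, Real.norm_of_nonneg (by linarith)]; linarith
  -- the shift
  set c : E →L[ℂ] E := ∑ j : Fin k, (g j.succ).smulRight (u j.castSucc) with hc
  have hcz : ∀ z, c z = ∑ j : Fin k, g j.succ z • u j.castSucc := by
    intro z
    rw [hc, sum_apply]
    rfl
  have hgc : ∀ (j : Fin k) z, g j.castSucc (c z) = g j.succ z := by
    intro j z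
    rw [hcz, map_sum]
    rw [Finset.sum_eq_single j]
    · rw [map_smul, hgu, if_pos rfl, smul_eq_mul, mul_one]
    · intro i _ hij
      rw [map_smul, hgu, if_neg (fun h => hij (Fin.castSucc_injective k h)), smul_zero]
    · intro h; exact absurd (Finset.mem_univ j) h
  have hgcl : ∀ z, g (Fin.last k) (c z) = 0 := by
    intro z
    rw [hcz, map_sum]
    refine Finset.sum_eq_zero fun i _ => ?_
    rw [map_smul, hgu, if_neg (Fin.castSucc_lt_last i).ne, smul_zero]
  -- parameters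
  set K : ℝ := ‖c‖ with hK
  have hK0 : 0 ≤ K := norm_nonneg c
  obtain ⟨η, hη0, hη1, hηr⟩ : ∃ η : ℝ, 0 < η ∧ η < 1 ∧ η ≤ r / 8 := by
    refine ⟨min (1 / 2) (r / 8), by positivity, ?_, min_le_right _ _⟩
    exact lt_of_le_of_lt (min_le_left _ _) (by norm_num)
  obtain ⟨ε, hε0, hε1, hεη, hεr⟩ : ∃ ε : ℝ, 0 < ε ∧ ε < 1 ∧ ε * (1 + K) < η ∧
      ε * (1 + K) ≤ r / 8 := by
    refine ⟨min (1 / 2) (min (η / (2 * (1 + K))) (r / (8 * (1 + K)))), by positivity, ?_, ?_, ?_⟩
    · exact lt_of_le_of_lt (min_le_left _ _) (by norm_num)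
    · have h1 : 0 < 1 + K := by positivity
      have h2 : min (1 / 2) (min (η / (2 * (1 + K))) (r / (8 * (1 + K)))) ≤ η / (2 * (1 + K)) :=
        (min_le_right _ _).trans (min_le_left _ _)
      have h3 := mul_le_mul_of_nonneg_right h2 h1.le
      have h4 : η / (2 * (1 + K)) * (1 + K) = η / 2 := by field_simp
      rw [h4] at h3
      linarith
    · have h1 : 0 < 1 + K := by positivity
      have h2 : min (1 / 2) (min (η / (2 * (1 + K))) (r / (8 * (1 + K)))) ≤ r / (8 * (1 + K)) :=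
        (min_le_right _ _).trans (min_le_right _ _)
      have h3 := mul_le_mul_of_nonneg_right h2 h1.le
      have h4 : r / (8 * (1 + K)) * (1 + K) = r / 8 := by field_simp
      rw [h4] at h3
      exact h3
  set a : E →L[ℂ] E := (1 - (ε : ℂ)) • (g 0).smulRight x + (ε : ℂ) • c with ha
  have haz : ∀ z, a z = ((1 - (ε : ℂ)) * g 0 z) • x + (ε : ℂ) • c z := by
    intro z
    rw [ha, add_apply, smul_apply,
      smul_apply, ContinuousLinearMap.smulRight_apply, smul_smul]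
  have hga : ∀ (j : Fin k) z,
      g j.castSucc (a z) = (1 - (ε : ℂ)) * g 0 z + (ε : ℂ) * g j.succ z := by
    intro j z
    rw [haz, map_add, map_smul, map_smul, hgx, hgc]
    simp
  have hgal : ∀ z, g (Fin.last k) (a z) = (1 - (ε : ℂ)) * g 0 z * ((1 - t : ℝ) : ℂ) := by
    intro z
    rw [haz, map_add, map_smul, map_smul, hgxl, hgcl]
    simp
  have h1ε : ‖(1 - (ε : ℂ))‖ = 1 - ε := by
    have : (1 - (ε : ℂ)) = ((1 - ε : ℝ) : ℂ) := by push_cast; ring
    rw [this, Complex.norm_real, Real.norm_of_nonneg (by linarith)]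
  have hεn : ‖(ε : ℂ)‖ = ε := by rw [Complex.norm_real, Real.norm_of_nonneg hε0.le]
  -- far from the first functional
  have hfar : ∀ z, ‖z‖ ≤ 1 → ‖g 0 z‖ ≤ 1 - η → ‖a z‖ < 1 := by
    intro z hz hz0
    rw [haz]
    refine lt_of_le_of_lt (norm_add_le _ _) ?_
    rw [norm_smul, norm_smul, norm_mul, h1ε, hεn]
    have hcz1 : ‖c z‖ ≤ K := (c.le_opNorm z).trans (by nlinarith)
    have h3 : (1 - ε) * ‖g 0 z‖ * ‖x‖ ≤ (1 - ε) * (1 - η) := by
      have h4 : ‖g 0 z‖ * ‖x‖ ≤ (1 - η) * 1 :=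
        mul_le_mul hz0 hx1 (norm_nonneg _) (by linarith)
      have := mul_le_mul_of_nonneg_left h4 (by linarith : (0 : ℝ) ≤ 1 - ε)
      nlinarith
    have h5 : ε * ‖c z‖ ≤ ε * K := mul_le_mul_of_nonneg_left hcz1 hε0.le
    nlinarith
  -- close to the first functional
  have hclose : ∀ z, ‖z‖ ≤ 1 → 1 - η < ‖g 0 z‖ → ∃ j, ‖g j (a z)‖ = ‖a z‖ := by
    intro z hz hz0
    have hpos : 0 < ‖g 0 z‖ := by linarith
    have hne : g 0 z ≠ 0 := by simpa using hpos.ne'
    set ω : ℂ := (‖g 0 z‖ : ℂ) / g 0 z with hω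
    have hω1 : ‖ω‖ = 1 := by
      rw [hω, norm_div, Complex.norm_real, norm_norm, div_self hpos.ne']
    have hωg : ω * g 0 z = (‖g 0 z‖ : ℂ) := by
      rw [hω]; field_simp
    have hd : ‖ω • a z - v‖ < r := by
      have e1 : ω • a z - v = (((1 - ε) * ‖g 0 z‖ - 1 : ℝ) : ℂ) • x + (ω * ε) • c z + (x - v) := by
        rw [haz, smul_add, smul_smul, smul_smul]
        have : ω * ((1 - (ε : ℂ)) * g 0 z) = (((1 - ε) * ‖g 0 z‖ : ℝ) : ℂ) := by
          rw [mul_left_comm, hωg]; push_cast; ring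
        rw [this]
        push_cast
        rw [sub_smul, one_smul]
        abel
      rw [e1]
      have hcz1 : ‖c z‖ ≤ K := (c.le_opNorm z).trans (by nlinarith)
      have hle1 : ‖g 0 z‖ ≤ 1 := (hg 0 z).trans hz
      have n1 : ‖(((1 - ε) * ‖g 0 z‖ - 1 : ℝ) : ℂ) • x‖ ≤ η + ε := by
        rw [norm_smul, Complex.norm_real, Real.norm_eq_abs]
        have : |(1 - ε) * ‖g 0 z‖ - 1| ≤ η + ε := by
          rw [abs_le]
          constructor <;> nlinarith
        calc |(1 - ε) * ‖g 0 z‖ - 1| * ‖x‖ ≤ (η + ε) * 1 :=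
              mul_le_mul this hx1 (norm_nonneg _) (by positivity)
          _ = η + ε := by ring
      have n2 : ‖(ω * ε) • c z‖ ≤ ε * K := by
        rw [norm_smul, norm_mul, hω1, hεn, one_mul]
        exact mul_le_mul_of_nonneg_left hcz1 hε0.le
      calc _ ≤ ‖(((1 - ε) * ‖g 0 z‖ - 1 : ℝ) : ℂ) • x‖ + ‖(ω * ε) • c z‖ + ‖x - v‖ :=
            norm_add₃_le
        _ < r := by nlinarith
    obtain ⟨j, hj⟩ := (hnorm _ hd).1
    refine ⟨j, ?_⟩
    simp only at hj
    rw [map_smul, smul_eq_mul, norm_mul, hω1, one_mul, norm_smul, hω1, one_mul] at hj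
    exact hj
  have hcoord : ∀ z, ‖z‖ ≤ 1 → ∀ j, ‖g j (a z)‖ ≤ 1 := by
    intro z hz j
    rcases Fin.eq_castSucc_or_eq_last j with ⟨i, rfl⟩ | rfl
    · rw [hga]
      refine (norm_add_le _ _).trans ?_
      rw [norm_mul, norm_mul, h1ε, hεn]
      have h1 := (hg 0 z).trans hz
      have h2 := (hg i.succ z).trans hz
      nlinarith
    · rw [hgal, norm_mul, norm_mul, h1ε, Complex.norm_real, Real.norm_of_nonneg (by linarith)]
      have h1 := (hg 0 z).trans hz
      have h2 : (1 - ε) * ‖g 0 z‖ ≤ 1 := by nlinarith [norm_nonneg (g 0 z)]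
      have h3 : 0 ≤ (1 - ε) * ‖g 0 z‖ := mul_nonneg (by linarith) (norm_nonneg _)
      nlinarith
  have hunit : ∀ z, ‖z‖ ≤ 1 → ‖a z‖ ≤ 1 := by
    intro z hz
    rcases le_or_gt ‖g 0 z‖ (1 - η) with h | h
    · exact (hfar z hz h).le
    · obtain ⟨j, hj⟩ := hclose z hz h
      rw [← hj]
      exact hcoord z hz j
  have hcontr : ∀ z, ‖a z‖ ≤ 1 * ‖z‖ := by
    intro z
    rcases eq_or_ne z 0 with rfl | hz
    · simp
    have hz' : ‖z‖ ≠ 0 := norm_ne_zero_iff.2 hz
    have h1 := hunit (((‖z‖⁻¹ : ℝ) : ℂ) • z) (by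
      rw [norm_smul, Complex.norm_real, Real.norm_of_nonneg (by positivity),
        inv_mul_cancel₀ hz'])
    rw [map_smul, norm_smul, Complex.norm_real, Real.norm_of_nonneg (by positivity)] at h1
    rw [inv_mul_le_iff₀ (by positivity)] at h1
    linarith
  have ha1 : ‖a‖ ≤ 1 := ContinuousLinearMap.opNorm_le_bound a zero_le_one hcontr
  refine ⟨a, ha1, ?_, ?_⟩
  · -- the chain
    have hch : ∀ m : ℕ, ∀ j : Fin (k + 1), (j : ℕ) + m ≤ k → g j ((a ^ m) v) = 1 := by
      intro m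
      induction m with
      | zero => intro j _; simpa using hgv j
      | succ m ih =>
        intro j hj
        have hjk : (j : ℕ) < k := by omega
        obtain ⟨i, rfl⟩ : ∃ i : Fin k, j = i.castSucc := ⟨⟨j, hjk⟩, by ext; simp⟩
        rw [pow_succ', mul_apply_eq_comp, hga, ih 0 (by simp; omega),
          ih i.succ (by simp at hj ⊢; omega)]
        ring
    have h1 := hch k 0 (by simp)
    apply le_antisymm
    · calc ‖a ^ k‖ ≤ ‖a‖ ^ k := norm_pow_le a k
        _ ≤ 1 := pow_le_one₀ (norm_nonneg _) ha1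
    · calc (1 : ℝ) = ‖g 0 ((a ^ k) v)‖ := by rw [h1, norm_one]
        _ ≤ ‖(a ^ k) v‖ := hg _ _
        _ ≤ ‖a ^ k‖ * ‖v‖ := (a ^ k).le_opNorm v
        _ = ‖a ^ k‖ := by rw [hv1, mul_one]
  · -- the spectral radius
    refine spectralRadius_lt_one a ?_
    intro l y hy hay
    have hyn : ‖y‖ ≠ 0 := norm_ne_zero_iff.2 hy
    -- normalise
    set w : E := ((‖y‖⁻¹ : ℝ) : ℂ) • y with hw
    have hw1 : ‖w‖ = 1 := by
      rw [hw, norm_smul, Complex.norm_real, Real.norm_of_nonneg (by positivity),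
        inv_mul_cancel₀ hyn]
    have haw : a w = l • w := by
      rw [hw, map_smul, hay, smul_comm]
    have hl1 : ‖l‖ ≤ 1 := by
      have := hunit w hw1.le
      rw [haw, norm_smul, hw1, mul_one] at this
      exact this
    by_contra hcon
    have hl : ‖l‖ = 1 := le_antisymm hl1 (not_lt.1 hcon)
    have haw1 : ‖a w‖ = 1 := by rw [haw, norm_smul, hl, hw1, mul_one]
    have hgw : ∀ j, ‖g j (a w)‖ = ‖g j w‖ := by
      intro j
      rw [haw, map_smul, smul_eq_mul, norm_mul, hl, one_mul]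
    have hg0 : 1 - η < ‖g 0 w‖ := by
      by_contra h
      exact absurd (hfar w hw1.le (not_lt.1 h)) (by rw [haw1]; exact lt_irrefl _)
    obtain ⟨j, hj⟩ := hclose w hw1.le hg0
    rw [haw1] at hj
    have hlast : ‖g (Fin.last k) (a w)‖ < 1 := by
      rw [hgal, norm_mul, norm_mul, h1ε, Complex.norm_real, Real.norm_of_nonneg (by linarith)]
      have h1 := (hg 0 w).trans hw1.le
      have h3 : 0 ≤ ‖g 0 w‖ := norm_nonneg _
      have h4 : (1 - ε) * ‖g 0 w‖ ≤ 1 - ε := by nlinarith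
      have h5 : (1 - ε) * ‖g 0 w‖ * (1 - t) ≤ (1 - ε) * 1 :=
        mul_le_mul h4 (by linarith) (by linarith) (by linarith)
      linarith
    -- value one at the first functional
    have key : ∀ i : Fin k, ‖g i.castSucc (a w)‖ = 1 → g i.succ w = g 0 w ∧ ‖g 0 w‖ = 1 := by
      intro i hi
      rw [hga] at hi
      exact eq_of_convex_norm hε0 hε1 ((hg 0 w).trans hw1.le) ((hg _ w).trans hw1.le) hi
    rcases Fin.eq_castSucc_or_eq_last j with ⟨i, rfl⟩ | rfl
    · have h0 := (key i hj).2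
      have hall : ∀ m : ℕ, ∀ hm : m < k + 1, ‖g ⟨m, hm⟩ w‖ = 1 := by
        intro m
        induction m with
        | zero => intro _; exact h0
        | succ m ih =>
          intro hm
          have h1 := ih (by omega)
          have h2 : ‖g (Fin.castSucc ⟨m, by omega⟩) (a w)‖ = 1 := by
            rw [hgw]; exact h1
          have h3 := key ⟨m, by omega⟩ h2
          have h4 : g ⟨m + 1, hm⟩ w = g 0 w := h3.1
          rw [h4]; exact h3.2
      have h5 := hall k (by omega)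
      have h6 : ‖g (Fin.last k) (a w)‖ = 1 := by rw [hgw]; exact h5
      exact absurd h6 hlast.ne
    · exact absurd hj hlast.ne

end Pool.Agent.Helper41.Crit
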