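import Pool.Agent.Helper41.Crit.Simple
import Pool.Agent.Helper41.Crit.Generic

set_option autoImplicit false

/-!
# Critical exponents of norms with a polyhedral vertex
-/

namespace Pool.Agent.Helper41.Crit

open Complex Topology

variable {E : Type*} [NormedAddCommGroup E] [NormedSpace ℂ E]

theorem exists_simple {ι : Type*} [DecidableEq ι] [Finite ι] [FiniteDimensional ℂ E]
    (f : ι → E →L[ℂ] ℂ) (v : E) (hv : ∀ j, ‖f j v‖ = 1) (k : ℕ)
    (hk : k ≤ Module.finrank ℂ (Submodule.span ℂ (Set.range f))) :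
    ∃ s : Finset ι, s.card = k ∧ (∃ e : ι → E, ∀ m ∈ s, ∀ n ∈ s,
      f m (e n) = if m = n then 1 else 0) ∧ v ∈ closure (R f s) := by
  induction k with
  | zero =>
    refine ⟨∅, rfl, ⟨fun _ => 0, by simp⟩, ?_⟩
    rw [Metric.mem_closure_iff]
    intro δ hδ
    obtain ⟨t, ht0, ht⟩ := exists_small ‖v‖ δ (norm_nonneg _) hδ
    set t' : ℝ := min t 1 with ht'
    have ht'0 : 0 < t' := by positivity
    have ht'1 : t' ≤ 1 := min_le_right _ _
    refine ⟨((1 - t' : ℝ) : ℂ) • v, ⟨by simp, fun j => Or.inl ?_⟩, ?_⟩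
    · rw [map_smul, smul_eq_mul, norm_mul, hv, mul_one, Complex.norm_real,
        Real.norm_of_nonneg (by linarith)]
      linarith
    · rw [dist_eq_norm]
      have : v - ((1 - t' : ℝ) : ℂ) • v = (t' : ℂ) • v := by
        push_cast; rw [sub_smul, one_smul]; abel
      rw [this, norm_smul, Complex.norm_real, Real.norm_of_nonneg ht'0.le]
      exact lt_of_le_of_lt (mul_le_mul_of_nonneg_right (min_le_left _ _) (norm_nonneg _)) ht
  | succ k ih =>
    obtain ⟨s, hs, ⟨e, he⟩, hvs⟩ := ih (by omega)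
    have hex : ∃ i0, ∃ w0, (∀ m ∈ s, f m w0 = 0) ∧ f i0 w0 ≠ 0 := by
      classical
      by_contra hcon
      push Not at hcon
      have hsub : Submodule.span ℂ (Set.range f) ≤
          Submodule.span ℂ ((s.image f : Finset (E →L[ℂ] ℂ)) : Set (E →L[ℂ] ℂ)) := by
        rw [Submodule.span_le]
        rintro _ ⟨i, rfl⟩
        have hfi : f i = ∑ m ∈ s, f i (e m) • f m := by
          ext y
          have h1 := hcon i (y - ∑ m ∈ s, f m y • e m) (by
            intro n hn
            rw [map_sub, map_sum, Finset.sum_eq_single n]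
            · rw [map_smul, he n hn n hn, if_pos rfl, smul_eq_mul, mul_one, sub_self]
            · intro m hm hmn
              rw [map_smul, he n hn m hm, if_neg (Ne.symm hmn), smul_zero]
            · intro h; exact absurd hn h)
          rw [map_sub, map_sum, sub_eq_zero] at h1
          rw [h1, sum_apply]
          refine Finset.sum_congr rfl fun m _ => ?_
          rw [map_smul, smul_apply, smul_eq_mul, smul_eq_mul, mul_comm]
        rw [hfi]
        refine Submodule.sum_mem _ fun m hm => Submodule.smul_mem _ _ (Submodule.subset_span ?_)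
        exact Finset.mem_coe.2 (Finset.mem_image_of_mem f hm)
      have h1 := Submodule.finrank_mono hsub
      have h2 := finrank_span_finset_le_card (R := ℂ) (s.image f)
      have h3 : (s.image f).card ≤ s.card := Finset.card_image_le
      have h4 : Module.finrank ℂ (Submodule.span ℂ (Set.range f)) ≤ k := by
        rw [← hs]
        exact h1.trans (h2.trans h3)
      omega
    obtain ⟨i0, w0, hw0, hi0⟩ := hex
    obtain ⟨j0, hj0, he', hcl⟩ := step f v hv s e he hvs i0 w0 hw0 hi0
    exact ⟨insert j0 s, by rw [Finset.card_insert_of_notMem hj0, hs], he', hcl⟩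

/-- the chain of contractions at a vertex of rank `k + 1` -/
theorem vertex_chain {ι : Type*} [Finite ι] [FiniteDimensional ℂ E]
    (f : ι → E →L[ℂ] ℂ) (v : E) (hv : ∀ j, ‖f j v‖ = 1) (r : ℝ) (hr : 0 < r)
    (hnorm : ∀ z, ‖z - v‖ < r → IsGreatest (Set.range fun j => ‖f j z‖) ‖z‖) (k : ℕ)
    (hk : k + 1 ≤ Module.finrank ℂ (Submodule.span ℂ (Set.range f))) :
    ∃ a : E →L[ℂ] E, ‖a‖ ≤ 1 ∧ ‖a ^ k‖ = 1 ∧ spectralRadius ℂ a < 1 := by
  classical
  obtain ⟨s, hs, ⟨e, he⟩, hvs⟩ := exists_simple f v hv _ hk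
  obtain ⟨x, hx, hxv⟩ := Metric.mem_closure_iff.1 hvs r hr
  rw [dist_eq_norm, norm_sub_rev] at hxv
  have hfin : Fintype.card s = k + 1 := by rw [Fintype.card_coe, hs]
  let σ : Fin (k + 1) ≃ s := (Fintype.equivFinOfCardEq hfin).symm
  have hσ : ∀ i, ((σ i : s) : ι) ∈ s := fun i => (σ i).2
  have hf1 : ∀ i, ‖f (σ i) x‖ = 1 := fun i => hx.1 _ (hσ i)
  have hf0 : ∀ i, f (σ i) x ≠ 0 := by
    intro i h
    have := hf1 i
    rw [h, norm_zero] at this
    exact zero_ne_one this
  have hgn : ∀ i z, ‖((f (σ i) x)⁻¹ • f (σ i)) z‖ = ‖f (σ i) z‖ := by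
    intro i z
    rw [smul_apply, smul_eq_mul, norm_mul, norm_inv, hf1, inv_one, one_mul]
  -- near x the inactive functionals are smaller
  have hev : ∀ᶠ z in 𝓝 x, ∀ j, ‖f j x‖ < 1 → ‖f j z‖ < ‖f (σ 0) z‖ := by
    rw [Filter.eventually_all]
    intro j
    by_cases hj : ‖f j x‖ < 1
    · have : ∀ᶠ z in 𝓝 x, ‖f j z‖ < ‖f (σ 0) z‖ :=
        (f j).continuous.norm.continuousAt.eventually_lt
          (f (σ 0)).continuous.norm.continuousAt (by rw [hf1]; exact hj)
      exact this.mono fun y hy _ => hy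
    · exact Filter.Eventually.of_forall fun y h => absurd h hj
  obtain ⟨ρ, hρ0, hρ⟩ := Metric.eventually_nhds_iff.1 hev
  refine simple_vertex k (fun i => (f (σ i) x)⁻¹ • f (σ i))
    (fun i => f (σ i) x • e (σ i)) ?_ x ?_ (min ρ (r - ‖x - v‖))
    (lt_min hρ0 (by linarith)) ?_
  · intro i j
    rw [smul_apply, map_smul, he _ (hσ j) _ (hσ i)]
    by_cases hij : i = j
    · subst hij
      rw [if_pos rfl, if_pos rfl, smul_eq_mul, smul_eq_mul, mul_one,
        inv_mul_cancel₀ (hf0 i)]
    · have hne : ((σ j : s) : ι) ≠ ((σ i : s) : ι) := by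
        intro h
        exact hij (σ.injective (Subtype.ext h)).symm
      rw [if_neg hne, if_neg hij, smul_zero, smul_zero]
  · intro j
    rw [smul_apply, smul_eq_mul, inv_mul_cancel₀ (hf0 j)]
  · intro z hz
    have hz1 : dist z x < ρ := by rw [dist_eq_norm]; exact lt_of_lt_of_le hz (min_le_left _ _)
    have hz2 : ‖z - v‖ < r := by
      have h1 : z - v = (z - x) + (x - v) := by abel
      have h2 : ‖z - x‖ < r - ‖x - v‖ := lt_of_lt_of_le hz (min_le_right _ _)
      rw [h1]
      exact lt_of_le_of_lt (norm_add_le _ _) (by linarith)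
    obtain ⟨⟨j, hj⟩, hub⟩ := hnorm z hz2
    refine ⟨?_, ?_⟩
    · simp only at hj
      rcases hx.2 j with h | ⟨m, hm, hjm⟩
      · exfalso
        have h1 := hρ hz1 j h
        have h2 := hub ⟨(σ 0 : s), rfl⟩
        simp only at h2
        linarith
      · refine ⟨σ.symm ⟨m, hm⟩, ?_⟩
        simp only
        rw [hgn, Equiv.apply_symm_apply, ← hj]
        exact (hjm.norm z).symm
    · rintro _ ⟨i, rfl⟩
      simp only
      rw [hgn]
      exact hub ⟨_, rfl⟩

theorem le_of_chain (k q : ℕ) (a : E →L[ℂ] E) (ha : ‖a‖ ≤ 1) (hak : ‖a ^ k‖ = 1)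
    (hsp : spectralRadius ℂ a < 1)
    (hq : ∀ a : E →L[ℂ] E, ‖a‖ ≤ 1 → ‖a ^ q‖ = 1 → spectralRadius ℂ a = 1) : k + 1 ≤ q := by
  by_contra hlt
  have hqk : q ≤ k := by omega
  rcases subsingleton_or_nontrivial E with hE | hE
  · have : a ^ k = 0 := by ext x; exact Subsingleton.elim _ _
    rw [this, norm_zero] at hak
    exact zero_ne_one hak
  have h1 : ‖a ^ q‖ = 1 := by
    apply le_antisymm
    · exact (norm_pow_le a q).trans (pow_le_one₀ (norm_nonneg _) ha)
    · have h2 : a ^ k = a ^ (k - q) * a ^ q := by rw [← pow_add]; congr 1; omega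
      have h3 : ‖a ^ (k - q)‖ ≤ 1 := (norm_pow_le a _).trans (pow_le_one₀ (norm_nonneg _) ha)
      calc (1 : ℝ) = ‖a ^ k‖ := hak.symm
        _ = ‖a ^ (k - q) * a ^ q‖ := by rw [h2]
        _ ≤ ‖a ^ (k - q)‖ * ‖a ^ q‖ := norm_mul_le _ _
        _ ≤ 1 * ‖a ^ q‖ := mul_le_mul_of_nonneg_right h3 (norm_nonneg _)
        _ = ‖a ^ q‖ := one_mul _
  rw [hq a ha h1] at hsp
  exact lt_irrefl _ hsp

/-- a polyhedral norm has a vertex of full rank -/
theorem polyhedral_vertex {ι : Type*} [Finite ι] [FiniteDimensional ℂ E] [Nontrivial E]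
    (f : ι → E →L[ℂ] ℂ) (hnorm : ∀ z, IsGreatest (Set.range fun j => ‖f j z‖) ‖z‖) :
    ∃ (v : E) (J : Set ι) (r : ℝ), 0 < r ∧ (∀ j : J, ‖f j v‖ = 1) ∧
      (∀ z, ‖z - v‖ < r → IsGreatest (Set.range fun j : J => ‖f j z‖) ‖z‖) ∧
      Module.finrank ℂ (Submodule.span ℂ (Set.range fun j : J => f j)) =
        Module.finrank ℂ E := by
  classical
  have : ProperSpace E := FiniteDimensional.proper ℂ E
  have hcomp : IsCompact (Metric.closedBall (0 : E) 1) := isCompact_closedBall _ _
  let _ : NormedSpace ℝ E := NormedSpace.restrictScalars ℝ ℂ E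
  obtain ⟨v, hv⟩ := hcomp.extremePoints_nonempty (E := E) ⟨0, by simp⟩
  have hvle : ‖v‖ ≤ 1 := mem_closedBall_zero_iff.1 hv.1
  have hub : ∀ j z, ‖f j z‖ ≤ ‖z‖ := fun j z => (hnorm z).2 ⟨j, rfl⟩
  set J : Set ι := {j | ‖f j v‖ = 1} with hJ
  have hina : ∀ j, j ∉ J → ‖f j v‖ < 1 := fun j hj =>
    lt_of_le_of_ne ((hub j v).trans hvle) hj
  -- no direction is annihilated by all active functionals
  have hann : ∀ w : E, (∀ j ∈ J, f j w = 0) → w = 0 := by
    intro w hw
    by_contra hne
    have hev : ∀ᶠ t : ℝ in 𝓝 0, ∀ j, j ∉ J → ‖f j (v + (t : ℂ) • w)‖ < 1 := by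
      rw [Filter.eventually_all]
      intro j
      by_cases hj : j ∈ J
      · exact Filter.Eventually.of_forall fun t h => absurd hj h
      · have hc : Continuous fun t : ℝ => ‖f j (v + (t : ℂ) • w)‖ := by fun_prop
        have : ∀ᶠ t : ℝ in 𝓝 0, ‖f j (v + (t : ℂ) • w)‖ < 1 :=
          hc.continuousAt.eventually_lt continuousAt_const (by simpa using hina j hj)
        exact this.mono fun t ht _ => ht
    obtain ⟨ρ, hρ0, hρ⟩ := Metric.eventually_nhds_iff.1 hev
    have hin : ∀ t : ℝ, |t| < ρ → v + (t : ℂ) • w ∈ Metric.closedBall (0 : E) 1 := by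
      intro t ht
      rw [mem_closedBall_zero_iff]
      obtain ⟨j, hj⟩ := (hnorm (v + (t : ℂ) • w)).1
      simp only at hj
      rw [← hj]
      by_cases hjJ : j ∈ J
      · rw [map_add, map_smul, hw j hjJ, smul_zero, add_zero]
        exact (hub j v).trans hvle
      · exact (hρ (by rw [Real.dist_eq, sub_zero]; exact ht) j hjJ).le
    have h1 := hin (ρ / 2) (by rw [abs_of_pos (by positivity)]; linarith)
    have h2 := hin (-(ρ / 2)) (by rw [abs_neg, abs_of_pos (by positivity)]; linarith)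
    have h3 : v ∈ openSegment ℝ (v + ((ρ / 2 : ℝ) : ℂ) • w) (v + ((-(ρ / 2) : ℝ) : ℂ) • w) := by
      refine ⟨1 / 2, 1 / 2, by norm_num, by norm_num, by norm_num, ?_⟩
      rw [smul_add, smul_add]
      push_cast
      rw [neg_smul, smul_neg]
      have : (1 / 2 : ℝ) • v + (1 / 2 : ℝ) • v = v := by
        rw [← add_smul]; norm_num
      calc _ = (1 / 2 : ℝ) • v + (1 / 2 : ℝ) • v := by abel
        _ = v := this
    have h4 := hv.2 h1 h2 h3
    have h5 : ((ρ / 2 : ℝ) : ℂ) • w = 0 := by
      have := h4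
      rw [add_eq_left] at this
      exact this
    rw [smul_eq_zero] at h5
    rcases h5 with h5 | h5
    · have : (ρ / 2 : ℝ) ≠ 0 := by positivity
      exact this (by exact_mod_cast h5)
    · exact hne h5
  have hJne : J.Nonempty := by
    by_contra hem
    rw [Set.not_nonempty_iff_eq_empty] at hem
    obtain ⟨w, hw⟩ := exists_ne (0 : E)
    exact hw (hann w (by rw [hem]; simp))
  obtain ⟨j1, hj1⟩ := hJne
  have hev : ∀ᶠ z in 𝓝 v, ∀ j, j ∉ J → ‖f j z‖ < ‖f j1 z‖ := by
    rw [Filter.eventually_all]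
    intro j
    by_cases hj : j ∈ J
    · exact Filter.Eventually.of_forall fun t h => absurd hj h
    · have : ∀ᶠ z in 𝓝 v, ‖f j z‖ < ‖f j1 z‖ :=
        (f j).continuous.norm.continuousAt.eventually_lt
          (f j1).continuous.norm.continuousAt (by
            have h1 : ‖f j1 v‖ = 1 := hj1
            rw [h1]; exact hina j hj)
      exact this.mono fun t ht _ => ht
  obtain ⟨r, hr0, hr⟩ := Metric.eventually_nhds_iff.1 hev
  refine ⟨v, J, r, hr0, fun j => j.2, ?_, ?_⟩
  · intro z hz
    obtain ⟨j, hj⟩ := (hnorm z).1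
    simp only at hj
    refine ⟨?_, ?_⟩
    · by_cases hjJ : j ∈ J
      · exact ⟨⟨j, hjJ⟩, hj⟩
      · exfalso
        have h1 := hr (by rw [dist_eq_norm]; exact hz) j hjJ
        have h2 := hub j1 z
        linarith
    · rintro _ ⟨j, rfl⟩
      exact hub j z
  · -- the span is everything
    apply le_antisymm
    · have h1 := Submodule.finrank_le (Submodule.span ℂ (Set.range fun j : J => f j))
      have h2 : Module.finrank ℂ (E →L[ℂ] ℂ) = Module.finrank ℂ E := by
        rw [← (LinearMap.toContinuousLinearMap (𝕜 := ℂ) (E := E) (F' := ℂ)).finrank_eq]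
        exact Subspace.dual_finrank_eq
      rw [h2] at h1
      exact h1
    · -- evaluation is injective
      set S := Submodule.span ℂ (Set.range fun j : J => f j) with hS
      let T : E →ₗ[ℂ] Module.Dual ℂ S :=
        { toFun := fun x =>
            { toFun := fun φ => (φ : E →L[ℂ] ℂ) x
              map_add' := by intro a b; rfl
              map_smul' := by intro c a; rfl }
          map_add' := by intro a b; ext φ; simp
          map_smul' := by intro c a; ext φ; simp }
      have hT : Function.Injective T := by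
        rw [← LinearMap.ker_eq_bot, LinearMap.ker_eq_bot']
        intro x hx
        refine hann x fun j hj => ?_
        have := congrArg (fun L => L ⟨f j, Submodule.subset_span ⟨⟨j, hj⟩, rfl⟩⟩) hx
        exact this
      have h1 := LinearMap.finrank_le_finrank_of_injective hT
      have h2 : Module.finrank ℂ (Module.Dual ℂ S) = Module.finrank ℂ S :=
        Subspace.dual_finrank_eq (K := ℂ) (V := S)
      rw [h2] at h1
      exact h1

end Pool.Agent.Helper41.Crit
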